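import Pool.Agent.N184.BB.Main

/-!
# Lifting cohomologically trivial cycles orthogonally to fibral cycles, up to dimension three

Let `E` be a number field, `X` a smooth proper variety of dimension `d` over `E` and `𝒳` any regular
proper flat model of `X` over the ring of integers `O_E`. Let `i ≤ 1` or `i ≥ d - 1`; this is no
condition if `d ≤ 3`. We prove that every cohomologically trivial class `c ∈ Ch^i(X)_ℚ` has a lift
`z ∈ Ch^i(𝒳)_ℚ` which is orthogonal to all cycles of codimension `d + 1 - i` supported on the fibres.
So Q1 holds for all `X` of dimension at most three (for every regular model and all `i`), and the
height pairing of Beilinson and Bloch is defined for the cycles of codimension two on threefolds which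
have a regular model; and in every dimension Q1 holds for divisors, for cycles of dimension zero
and for cycles of dimension one. No conjecture is assumed.

Idea of the proof. It suffices to correct a lift by cycles on the fibres over the finitely many bad
primes. By the projection formula one may replace `𝒳`, over the completion of `O_E`, by a strictly
semistable alteration (de Jong). There let `lam` be the restriction of the lift to the disjoint
union `Y^(1)` of the components of the special fibre. One has to find a cycle `v` on `Y^(1)` such
that `lam - G ρ v` is numerically trivial on `Y^(1)`, where `ρ` is the restriction to the double locus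
`Y^(2)` and `G` the Gysin map. By duality, one has to show `lam · w = 0` for all `w` such that `G ρ w` is
numerically trivial. By the weight spectral sequence, and as numerical and homological equivalence
agree for divisors, `lam · w = 0` if `ρ w` is numerically trivial, and also `lam · G u = 0`, because
`ρ lam = 0`. For `i = d - 1` it remains to show: if `w` is a divisor class on `Y^(1)` and `G ρ w` is
numerically trivial then there is a function `u` on the set of the components of `Y^(2)` such that
`ρ (w + G u)` is numerically trivial. This is an elementary (but apparently new) argument with the
dual graph, which only uses the index theorem for divisors on the components of `Y^(1)` and `Y^(2)`: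
if `h` is a harmonic `1`-cocycle of the dual complex, weighted by degrees, then `G h` is primitive and
its square is zero, so it is numerically trivial. Hence the degrees of `ρ w` on the components of
`Y^(2)`, a cycle of the dual complex, are orthogonal to all `1`-cocycles, so they are a boundary and can
be changed to `0` by some `u`. Now `ρ (w + G u)` is primitive, its square is zero, and the index
theorem on `Y^(2)` shows that it is numerically trivial.
-/

set_option autoImplicit false

namespace Pool.Agent.Results.MP_62d77c_ag.DimensionThree

open Pool.Agent.N184.BB

/-- **Orthogonal lifting** for every regular proper flat model, if `d ≤ 3`, or `i ≤ 1`, or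
`i ≥ d - 1`. -/
theorem result {d i : ℕ} {P CX C : Type} {V V' : P → Type} [AddCommGroup CX] [Module ℚ CX]
    [AddCommGroup C] [Module ℚ C] [∀ p, AddCommGroup (V p)] [∀ p, Module ℚ (V p)]
    [∀ p, AddCommGroup (V' p)] [∀ p, Module ℚ (V' p)] (M : Model d i P CX C V V')
    (h : d ≤ 3 ∨ i ≤ 1 ∨ d ≤ i + 1) (c : CX) :
    ∃ z : C, M.res z = c ∧ ∀ (T : Finset P) (w : ∀ p, V' p), M.pairing z T w = 0 :=
  M.exists_lift_pairing (by omega) c

end Pool.Agent.Results.MP_62d77c_ag.DimensionThree
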